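import Pool.Agent.Y184.SP.Base4

/-! From the surface to the coordinates (`StSub`). -/

set_option autoImplicit false

open Set Topology Filter
open scoped ContDiff Manifold

namespace Pool.Agent.Y429.SP

open Pool.Agent.Y184.SP Pool.Agent.Y184.SP.Asm

lemma lap_trans (F : ℂ → ℝ) (c : ℂ) :
    Laplacian.laplacian (fun ζ : ℂ => F (ζ + c)) 0 = Laplacian.laplacian F c := by
  rw [InnerProductSpace.laplacian_eq_iteratedFDeriv_complexPlane,
    InnerProductSpace.laplacian_eq_iteratedFDeriv_complexPlane]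
  simp only [iteratedFDeriv_comp_add_right, zero_add]

lemma lev_line (D : E → ℝ) (z v : E) (c : ℂ) :
    Laplacian.laplacian (fun ζ : ℂ => D (z + ζ • v)) c = lev D (z + c • v) v := by
  rw [← lap_trans (fun ζ => D (z + ζ • v)) c]
  have h : (fun ζ : ℂ => D (z + (ζ + c) • v)) = fun ζ : ℂ => D (z + c • v + ζ • v) := by
    funext ζ
    rw [add_smul]
    congr 1
    abel
  unfold lev
  rw [h]

lemma line_an (z v : E) (c : ℂ) : ContDiffAt ℂ ω (fun ζ : ℂ => z + ζ • v) c :=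
  contDiffAt_const.add (contDiffAt_id.smul contDiffAt_const)

lemma line_real (z v : E) (n : WithTop ℕ∞) : ContDiff ℝ n (fun ζ : ℂ => z + ζ • v) :=
  contDiff_const.add (contDiff_id.smul contDiff_const)

lemma pot_nhds {Φ : E → ℝ} {j : Fin 5} {z : E} {ρ : E → ℝ} (h : PotAt Φ j z ρ) :
    ∀ᶠ t in 𝓝 z, PotAt Φ j t ρ := by
  obtain ⟨h1, h2⟩ := h
  have h1' : ∀ᶠ t in 𝓝 z, ContDiffAt ℝ ∞ ρ t := h1
  filter_upwards [eventually_eventually_nhds.2 h1', eventually_eventually_nhds.2 h2] with t a b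
  exact ⟨a, b⟩

section

variable [τ : TopologicalSpace X] [ch : ChartedSpace E X]

/-- smoothness of a potential in the coordinates -/
lemma pot_smooth (hM : IsMan τ ch) {φ : X → ℝ} {j : Fin 5} {z : E} (hz : z ∈ V j)
    (h : ContMDiffAt 𝓘(ℝ, ℂ × ℂ) 𝓘(ℝ, ℝ) ∞ φ (kap j z)) :
    ContDiffAt ℝ ∞ (fun t => φ (kap j t)) z := by
  have h1 : ContMDiffAt 𝓘(ℝ, E) 𝓘(ℝ, E) ∞ (kap j) z := real_of_complex (hM.kap_an j z hz)
  have h2 : ContMDiffAt 𝓘(ℝ, E) 𝓘(ℝ, ℝ) ∞ (φ ∘ kap j) z := ContMDiffAt.comp z h h1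
  exact contMDiffAt_iff_contDiffAt.1 h2

/-- the Levi form of a potential in the coordinates -/
lemma lev_pot (hLev : StLev) (hM : IsMan τ ch) {α : Form X} (hα : HasPots α Phi) {j : Fin 5}
    {z : E} (hz : z ∈ V j) {ρ : E → ℝ} (hρ : PotAt Phi j z ρ) {p : X}
    (hs : ContMDiffAt 𝓘(ℝ, ℂ × ℂ) 𝓘(ℝ, ℝ) ∞ (α.pot p) (kap j z))
    (hc : ∀ f : ℂ → X, IsDisc f → f 0 = kap j z →
      Laplacian.laplacian (fun ζ : ℂ => α.pot p (f ζ) - α.pot (kap j z) (f ζ)) 0 = 0) (v : E) :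
    lev (fun t => α.pot p (kap j t) + (-1) * ρ t) z v = 0 := by
  obtain ⟨g, hi⟩ := exists_inv' hM hz
  have hz0 : z + (0 : ℂ) • v = z := by simp
  have hf : IsDisc (fun ζ : ℂ => kap j (z + ζ • v)) := by
    have h1 : ContMDiffAt 𝓘(ℂ, E) 𝓘(ℂ, E) ω (kap j) (z + (0 : ℂ) • v) := by
      rw [hz0]; exact hM.kap_an j z hz
    exact ContMDiffAt.comp (0 : ℂ) h1 (contMDiffAt_iff_contDiffAt.2 (line_an z v 0))
  have hp : (fun ζ : ℂ => kap j (z + ζ • v)) 0 = kap j z := by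
    show kap j (z + (0 : ℂ) • v) = kap j z
    rw [hz0]
  have hct : Tendsto (fun ζ : ℂ => z + ζ • v) (𝓝 0) (𝓝 z) := by
    have h9 : Tendsto (fun ζ : ℂ => z + ζ • v) (𝓝 0) (𝓝 (z + (0 : ℂ) • v)) :=
      (line_an z v 0).continuousAt
    rwa [hz0] at h9
  have hd : deriv (fun ζ : ℂ => g (kap j (z + ζ • v))) 0 = v := by
    have h1 : (fun ζ : ℂ => g (kap j (z + ζ • v))) =ᶠ[𝓝 0] (fun ζ : ℂ => z + ζ • v) :=
      hct.eventually hi.left
    rw [h1.deriv_eq]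
    have h2 : HasDerivAt (fun ζ : ℂ => z + ζ • v) ((1 : ℂ) • v) 0 :=
      ((hasDerivAt_id (0 : ℂ)).smul_const v).const_add z
    rw [h2.deriv, one_smul]
  have h1 : α.val (fun ζ : ℂ => kap j (z + ζ • v)) = lev ρ z v := by
    rw [hα.val hi hf hp hρ, hd]
  have h2 : α.val (fun ζ : ℂ => kap j (z + ζ • v)) =
      Laplacian.laplacian (fun ζ : ℂ => α.pot (kap j z) (kap j (z + ζ • v))) 0 := by
    unfold Form.val
    simp only [hz0]
  have hs' : ContMDiffAt 𝓘(ℝ, ℂ × ℂ) 𝓘(ℝ, ℝ) ∞ (α.pot (kap j z)) (kap j z) :=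
    (α.smooth (kap j z)).self_of_nhds
  have sm1 := pot_smooth hM hz hs
  have sm3 := pot_smooth hM hz hs'
  have comp2 : ∀ φ : E → ℝ, ContDiffAt ℝ ∞ φ z →
      ContDiffAt ℝ 2 (fun ζ : ℂ => φ (z + ζ • v)) 0 := by
    intro φ hφ
    have e1 : ContDiffAt ℝ 2 φ (z + (0 : ℂ) • v) := by
      rw [hz0]
      exact hφ.of_le (by norm_cast)
    exact ContDiffAt.comp (0 : ℂ) e1 (line_real z v 2).contDiffAt
  have c1 := comp2 _ sm1
  have c2 := comp2 _ sm3
  have h3 := hc _ hf hp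
  have h4 : Laplacian.laplacian (fun ζ : ℂ => α.pot p (kap j (z + ζ • v)) -
      α.pot (kap j z) (kap j (z + ζ • v))) 0 =
      Laplacian.laplacian (fun ζ : ℂ => α.pot p (kap j (z + ζ • v))) 0 -
        Laplacian.laplacian (fun ζ : ℂ => α.pot (kap j z) (kap j (z + ζ • v))) 0 :=
    c1.laplacian_sub c2
  rw [h4, ← h2, h1] at h3
  have h5 : lev (fun t => α.pot p (kap j t)) z v =
      Laplacian.laplacian (fun ζ : ℂ => α.pot p (kap j (z + ζ • v))) 0 := rfl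
  have hρ2 : ContDiffAt ℝ 2 ρ z := sm2 hρ.1
  have h6 := hLev.2.2.1 (fun t => α.pot p (kap j t)) (fun t => (-1) * ρ t) z v
    (sm1.of_le (by norm_cast)) (contDiffAt_const.mul hρ2)
  rw [h6, hLev.2.2.2 ρ (-1) z v hρ2, h5]
  linarith

end

theorem sub (hPt : StPt) (hLev : StLev) : StSub := by
  intro τ ch hM α hα u hu hpsh j z0 hz0 ρ hρ
  obtain ⟨p, hp⟩ : ∃ p, p = kap j z0 := ⟨_, rfl⟩
  obtain ⟨N, hN, hpshN⟩ := hpsh p
  have hkc : Tendsto (kap j) (𝓝 z0) (𝓝 p) := by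
    rw [hp]
    exact (hM.kap_an j z0 hz0).continuousAt
  have e1 : ∀ᶠ t in 𝓝 z0, t ∈ V j := (hPt.1 j).mem_nhds hz0
  have e2 := hkc.eventually (α.smooth p)
  have e3 := hkc.eventually (α.compat p)
  have e4 := pot_nhds hρ
  have e5 : ∀ᶠ t in 𝓝 z0, kap j t ∈ N := hkc hN
  obtain ⟨R, hR, hball⟩ := Metric.eventually_nhds_iff.1 ((((e1.and e2).and e3).and e4).and e5)
  obtain ⟨D, hD⟩ : ∃ D : E → ℝ, D = fun t => α.pot p (kap j t) + (-1) * ρ t := ⟨_, rfl⟩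
  have hlevD : ∀ t, dist t z0 < R → ∀ v, lev D t v = 0 := by
    intro t ht v
    obtain ⟨⟨⟨⟨a1, a2⟩, a3⟩, a4⟩, -⟩ := hball ht
    rw [hD]
    exact lev_pot hLev hM hα a1 a4 a2 a3 v
  have hsmD : ∀ t, dist t z0 < R → ContDiffAt ℝ 2 D t := by
    intro t ht
    obtain ⟨⟨⟨⟨a1, a2⟩, a3⟩, a4⟩, -⟩ := hball ht
    rw [hD]
    exact ((pot_smooth hM a1 a2).of_le (by norm_cast)).add (contDiffAt_const.mul (sm2 a4.1))
  refine ⟨R / 2, by positivity, fun z v hz hv => ?_⟩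
  have hin : ∀ ζ : ℂ, ‖ζ‖ ≤ 1 → dist (z + ζ • v) z0 < R := by
    intro ζ hζ
    rw [dist_eq_norm]
    have h1 : z + ζ • v - z0 = (z - z0) + ζ • v := by abel
    rw [h1]
    have h2 : ‖ζ • v‖ ≤ ‖v‖ := by
      rw [norm_smul]
      exact mul_le_of_le_one_left (norm_nonneg _) hζ
    have h3 := norm_add_le (z - z0) (ζ • v)
    linarith
  have hlc : Continuous fun ζ : ℂ => z + ζ • v := by fun_prop
  -- harmonicity
  have hharm : InnerProductSpace.HarmonicOnNhd (fun ζ : ℂ => D (z + ζ • v))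
      (Metric.closedBall 0 |(1 : ℝ)|) := by
    intro x hx
    rw [abs_one, mem_closedBall_zero_iff] at hx
    refine ⟨ContDiffAt.comp x (hsmD _ (hin x hx)) (line_real z v 2).contDiffAt, ?_⟩
    have h1 : ∀ᶠ ζ in 𝓝 x, dist (z + ζ • v) z0 < R := by
      have h2 : ContinuousAt (fun ζ : ℂ => dist (z + ζ • v) z0) x :=
        (hlc.dist continuous_const).continuousAt
      exact h2.eventually_lt_const (hin x hx)
    filter_upwards [h1] with ζ hζ
    rw [lev_line]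
    exact hlevD _ hζ v
  have hmean := InnerProductSpace.HarmonicOnNhd.circleAverage_eq hharm
  simp only [zero_smul, add_zero] at hmean
  -- the disc
  have h1 := hpshN (fun ζ : ℂ => kap j (z + ζ • v)) fun ζ hζ => by
    obtain ⟨⟨⟨⟨a1, a2⟩, a3⟩, a4⟩, a5⟩ := hball (hin ζ hζ)
    refine ⟨?_, a5⟩
    exact ContMDiffAt.comp ζ (hM.kap_an j _ a1) (contMDiffAt_iff_contDiffAt.2 (line_an z v ζ))
  simp only [zero_smul, add_zero] at h1
  -- continuity on the circle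
  have hsph : ∀ ζ ∈ Metric.sphere (0 : ℂ) |(1 : ℝ)|, ‖ζ‖ ≤ 1 := by
    intro ζ hζ
    rw [abs_one, mem_sphere_zero_iff_norm] at hζ
    exact hζ.le
  have cD : CircleIntegrable (fun ζ : ℂ => D (z + ζ • v)) 0 1 := by
    refine ContinuousOn.circleIntegrable' fun ζ hζ => ?_
    exact (ContinuousAt.comp (f := fun ζ : ℂ => z + ζ • v) (g := D)
      (hsmD _ (hin ζ (hsph ζ hζ))).continuousAt hlc.continuousAt).continuousWithinAt
  have cR : CircleIntegrable (fun ζ : ℂ => ρ (z + ζ • v) + u (kap j (z + ζ • v))) 0 1 := by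
    refine ContinuousOn.circleIntegrable' fun ζ hζ => ?_
    obtain ⟨⟨⟨⟨a1, a2⟩, a3⟩, a4⟩, a5⟩ := hball (hin ζ (hsph ζ hζ))
    have k1 : ContinuousAt ρ (z + ζ • v) := (sm2 a4.1).continuousAt
    have k2 : ContinuousAt (fun t => u (kap j t)) (z + ζ • v) :=
      ContinuousAt.comp hu.continuousAt (hM.kap_an j _ a1).continuousAt
    exact (ContinuousAt.comp (f := fun ζ : ℂ => z + ζ • v) (g := fun t => ρ t + u (kap j t))
      (k1.add k2) hlc.continuousAt).continuousWithinAt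
  have h2 : (fun ζ : ℂ => α.pot p (kap j (z + ζ • v)) + u (kap j (z + ζ • v))) =
      fun ζ : ℂ => D (z + ζ • v) + (ρ (z + ζ • v) + u (kap j (z + ζ • v))) := by
    funext ζ
    rw [hD]
    ring
  have h3 : α.pot p (kap j z) + u (kap j z) = D z + (ρ z + u (kap j z)) := by
    rw [hD]
    ring
  rw [h2, h3, Real.circleAverage_fun_add cD cR, hmean] at h1
  exact le_of_add_le_add_left h1

end Pool.Agent.Y429.SP
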