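import Pool.Agent.Y429.SP.Reg

/-!
Project SP (MP_4ff127_gt): comparison of the functions near and far from the curve `y = 0`.
-/

set_option autoImplicit false
set_option linter.unusedVariables false

open Set Topology Filter
open scoped ContDiff

namespace Pool.Agent.Y429.SP

open Pool.Agent.Y184.SP

theorem abs_red_re (x : ℂ) : |(red x).re| ≤ 1 / 2 := by
  rw [red_re]; exact abs_sub_round _

theorem abs_red_im (x : ℂ) : |(red x).im| ≤ 1 / 2 := by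
  rw [red_im]; exact abs_sub_round _

theorem G_red {G h : ℂ → ℝ} {c : ℝ} (hG : IsGreen G h c) (x : ℂ) : G x = G (red x) := by
  have h1 := hG.per (red x) (((round x.re : ℤ) : ℂ) + ((round x.im : ℤ) : ℂ) * Complex.I)
    ⟨_, _, rfl⟩
  rw [← h1]
  congr 1
  unfold red
  ring

theorem sq_le_half {r : ℂ} (h1 : |r.re| ≤ 1 / 2) (h2 : |r.im| ≤ 1 / 2) : ‖r‖ ^ 2 ≤ 1 := by
  rw [Complex.sq_norm, Complex.normSq_apply]
  rw [abs_le] at h1 h2
  nlinarith [h1.1, h1.2, h2.1, h2.2]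

/-- bound of `G` far from the lattice -/
theorem G_bound {G h : ℂ → ℝ} {c : ℝ} (hG : IsGreen G h c) : ∃ B : ℝ, 0 ≤ B ∧ ∀ x : ℂ,
    1 / 8 ≤ ‖red x‖ → |G x| ≤ B := by
  obtain ⟨K, hK⟩ : ∃ K : Set ℂ, K = {r : ℂ | 1 / 8 ≤ ‖r‖ ∧ |r.re| ≤ 1 / 2 ∧ |r.im| ≤ 1 / 2} :=
    ⟨_, rfl⟩
  have hcl : IsClosed K := by
    rw [hK]
    refine (isClosed_le continuous_const continuous_norm).inter
      ((isClosed_le (Complex.continuous_re.abs) continuous_const).inter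
      (isClosed_le (Complex.continuous_im.abs) continuous_const))
  have hb : K ⊆ Metric.closedBall 0 1 := by
    intro r hr
    rw [hK] at hr
    rw [mem_closedBall_zero_iff]
    have := sq_le_half hr.2.1 hr.2.2
    nlinarith [norm_nonneg r]
  have hc : IsCompact K := (isCompact_closedBall (0:ℂ) 1).of_isClosed_subset hcl hb
  have hcont : ContinuousOn G K := by
    intro r hr
    rw [hK] at hr
    have hr' : r ∉ Lam := by
      rintro ⟨m, n, hmn⟩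
      have h1 : r.re = m := by rw [hmn]; simp
      have h2 : r.im = n := by rw [hmn]; simp
      have hm : m = 0 := by
        have h3 := hr.2.1
        rw [h1, abs_le] at h3
        have h4 : (-1 : ℝ) < m := by linarith [h3.1]
        have h5 : (m : ℝ) < 1 := by linarith [h3.2]
        have h4' : (-1 : ℤ) < m := by exact_mod_cast h4
        have h5' : m < 1 := by exact_mod_cast h5
        omega
      have hn : n = 0 := by
        have h3 := hr.2.2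
        rw [h2, abs_le] at h3
        have h4 : (-1 : ℝ) < n := by linarith [h3.1]
        have h5 : (n : ℝ) < 1 := by linarith [h3.2]
        have h4' : (-1 : ℤ) < n := by exact_mod_cast h4
        have h5' : n < 1 := by exact_mod_cast h5
        omega
      have h6 : r = 0 := by rw [hmn, hm, hn]; simp
      have := hr.1
      rw [h6, norm_zero] at this
      norm_num at this
    exact (hG.smooth r hr').continuousAt.continuousWithinAt
  obtain ⟨B, hB⟩ := hc.exists_bound_of_continuousOn hcont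
  refine ⟨max B 0, le_max_right _ _, ?_⟩
  intro x hx
  rw [G_red hG x]
  refine (hB (red x) ?_).trans (le_max_left _ _)
  rw [hK]
  exact ⟨hx, abs_red_re x, abs_red_im x⟩

theorem h_bound {G h : ℂ → ℝ} {c : ℝ} (hG : IsGreen G h c) : ∃ B : ℝ, 0 ≤ B ∧ ∀ r : ℂ,
    ‖r‖ ≤ 1 / 8 → |h r| ≤ B := by
  have hc : IsCompact (Metric.closedBall (0:ℂ) (1 / 8)) := isCompact_closedBall _ _
  have hcont : ContinuousOn h (Metric.closedBall (0:ℂ) (1 / 8)) := by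
    intro r hr
    rw [mem_closedBall_zero_iff] at hr
    exact (hG.smooth_h r (by linarith)).continuousAt.continuousWithinAt
  obtain ⟨B, hB⟩ := hc.exists_bound_of_continuousOn hcont
  refine ⟨max B 0, le_max_right _ _, ?_⟩
  intro r hr
  exact (hB r (by rw [mem_closedBall_zero_iff]; exact hr)).trans (le_max_left _ _)

/-- near the lattice -/
theorem near_add {G h : ℂ → ℝ} {c : ℝ} (hG : IsGreen G h c) (k C : ℝ) (hk : 0 < k) {z : E}
    (hz : z ∈ W) (hr : ‖red z.1‖ ≤ 1 / 8) :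
    near k C z + G z.1 = Real.log (‖z.2 - red z.1‖ ^ 2 + k * ‖red z.1‖ ^ 4) + h (red z.1) +
      C * ‖z.2‖ ^ 2 := by
  have hr0 : red z.1 ≠ 0 := red_ne_zero hz.1
  have hn : 0 < ‖red z.1‖ := norm_pos_iff.2 hr0
  have hchi : chi z.1 = 1 := by
    unfold chi
    apply bump.one_of_mem_closedBall
    rw [mem_closedBall_zero_iff]
    exact hr
  unfold near
  rw [hchi, one_mul, G_red hG, hG.eq (red z.1) (by linarith) hr0]
  have e : ‖z.2 - red z.1‖ ^ 2 + k * ‖red z.1‖ ^ 4 =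
      (‖z.2 / red z.1 - 1‖ ^ 2 + k * ‖red z.1‖ ^ 2) * ‖red z.1‖ ^ 2 := by
    have : z.2 / red z.1 - 1 = (z.2 - red z.1) / red z.1 := by field_simp
    rw [this, norm_div]
    field_simp
  rw [e, Real.log_mul (by positivity) (by positivity)]
  ring

theorem chi_mem (x : ℂ) : 0 ≤ chi x ∧ chi x ≤ 1 := ⟨bump.nonneg, bump.le_one⟩

theorem low_key {G h : ℂ → ℝ} {c : ℝ} (hG : IsGreen G h c) {k C B H : ℝ} (hk : 0 < k) (hk1 : k ≤ 1)
    (hC : 0 ≤ C) (hB0 : 0 ≤ B) (hB : ∀ x : ℂ, 1 / 8 ≤ ‖red x‖ → |G x| ≤ B) (hH0 : 0 ≤ H)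
    (hH : ∀ r : ℂ, ‖r‖ ≤ 1 / 8 → |h r| ≤ H) {z : E} (hz : z ∈ W) (hy0 : 0 < ‖z.2‖)
    (hy1 : ‖z.2‖ ≤ 1 / 16) (hlogy0 : Real.log ‖z.2‖ ≤ 0) (hl4 : 0 ≤ Real.log 4)
    (hlk : Real.log (k / 16) ≤ 0) :
    Real.log (k / 16) - H - B - Real.log 4 + 4 * Real.log ‖z.2‖ ≤ near k C z + G z.1 := by
  rcases le_or_gt ‖red z.1‖ (1 / 8) with hr | hr
  · rw [near_add hG k C hk hz hr]
    have h1 : k / 16 * ‖z.2‖ ^ 4 ≤ ‖z.2 - red z.1‖ ^ 2 + k * ‖red z.1‖ ^ 4 := by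
      rcases le_or_gt ‖red z.1‖ (‖z.2‖ / 2) with h2 | h2
      · have h3 : ‖z.2‖ - ‖red z.1‖ ≤ ‖z.2 - red z.1‖ := norm_sub_norm_le _ _
        have h4 : ‖z.2‖ / 2 ≤ ‖z.2 - red z.1‖ := by linarith
        have h5 : (‖z.2‖ / 2) ^ 2 ≤ ‖z.2 - red z.1‖ ^ 2 :=
          pow_le_pow_left₀ (by positivity) h4 2
        have h6 : k / 16 * ‖z.2‖ ^ 4 ≤ (‖z.2‖ / 2) ^ 2 := by
          have h7 : ‖z.2‖ ^ 2 ≤ 1 := by nlinarith
          have h8 : k / 16 * ‖z.2‖ ^ 4 = (k / 16 * ‖z.2‖ ^ 2) * ‖z.2‖ ^ 2 := by ring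
          have h9 : k / 16 * ‖z.2‖ ^ 2 ≤ 1 / 4 := by nlinarith [sq_nonneg ‖z.2‖]
          rw [h8]
          nlinarith [sq_nonneg ‖z.2‖]
        have h7 : 0 ≤ k * ‖red z.1‖ ^ 4 := by positivity
        linarith
      · have h5 : (‖z.2‖ / 2) ^ 4 ≤ ‖red z.1‖ ^ 4 := pow_le_pow_left₀ (by positivity) h2.le 4
        have h6 : k * (‖z.2‖ / 2) ^ 4 ≤ k * ‖red z.1‖ ^ 4 := mul_le_mul_of_nonneg_left h5 hk.le
        have h7 : k * (‖z.2‖ / 2) ^ 4 = k / 16 * ‖z.2‖ ^ 4 := by ring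
        have h8 : 0 ≤ ‖z.2 - red z.1‖ ^ 2 := by positivity
        linarith
    have h2 := Real.log_le_log (by positivity) h1
    rw [Real.log_mul (by positivity) (by positivity), Real.log_pow] at h2
    push_cast at h2
    have h3 := (abs_le.1 (hH (red z.1) hr)).1
    have h4 : 0 ≤ C * ‖z.2‖ ^ 2 := by positivity
    linarith
  · have hr0 : red z.1 ≠ 0 := red_ne_zero hz.1
    have hn : 0 < ‖red z.1‖ := norm_pos_iff.2 hr0
    have h1 : ‖z.2 / red z.1‖ ≤ 1 / 2 := by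
      rw [norm_div, div_le_iff₀ hn]
      linarith
    have h2 : 1 / 2 ≤ ‖z.2 / red z.1 - 1‖ := by
      have h3 : ‖(1:ℂ)‖ - ‖z.2 / red z.1‖ ≤ ‖1 - z.2 / red z.1‖ := norm_sub_norm_le _ _
      rw [norm_one, norm_sub_rev] at h3
      linarith
    have h3 : (1 / 4 : ℝ) ≤ ‖z.2 / red z.1 - 1‖ ^ 2 + k * ‖red z.1‖ ^ 2 := by
      have h4 : 0 ≤ k * ‖red z.1‖ ^ 2 := by positivity
      nlinarith
    have h4 := Real.log_le_log (by norm_num) h3
    have h5 : Real.log (1 / 4) = - Real.log 4 := by rw [one_div, Real.log_inv]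
    rw [h5] at h4
    obtain ⟨hc0, hc1⟩ := chi_mem z.1
    have h6 : - Real.log 4 ≤ chi z.1 * Real.log (‖z.2 / red z.1 - 1‖ ^ 2 + k * ‖red z.1‖ ^ 2) := by
      rcases le_or_gt 0 (Real.log (‖z.2 / red z.1 - 1‖ ^ 2 + k * ‖red z.1‖ ^ 2)) with h7 | h7
      · have := mul_nonneg hc0 h7
        linarith
      · nlinarith
    have h7 := (abs_le.1 (hB z.1 hr.le)).1
    have h8 : 0 ≤ C * ‖z.2‖ ^ 2 := by positivity
    unfold near
    linarith

theorem up_key {G h : ℂ → ℝ} {c : ℝ} (hG : IsGreen G h c) {k C B H η : ℝ} (hk : 0 < k) (hk1 : k ≤ 1)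
    (hC : 0 ≤ C) (hη : 0 < η) (hB0 : 0 ≤ B) (hB : ∀ x : ℂ, 1 / 8 ≤ ‖red x‖ → |G x| ≤ B) (hH0 : 0 ≤ H)
    (hH : ∀ r : ℂ, ‖r‖ ≤ 1 / 8 → |h r| ≤ H) {z : E} (hz : z ∈ W) (hy0 : 0 < ‖z.2‖)
    (hyη : ‖z.2‖ ≤ η) (hCy : C * ‖z.2‖ ^ 2 ≤ C * η ^ 2) (hl1 : 0 ≤ Real.log ((η + 1) ^ 2 + 1))
    (hl2 : 0 ≤ Real.log ((8 * η + 1) ^ 2 + 1)) :
    near k C z + G z.1 ≤ Real.log ((η + 1) ^ 2 + 1) + Real.log ((8 * η + 1) ^ 2 + 1) + H +
        B + C * η ^ 2 := by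
  rcases le_or_gt ‖red z.1‖ (1 / 8) with hr | hr
  · rw [near_add hG k C hk hz hr]
    have hr0 : red z.1 ≠ 0 := red_ne_zero hz.1
    have hn : 0 < ‖red z.1‖ := norm_pos_iff.2 hr0
    have h1 : ‖z.2 - red z.1‖ ^ 2 + k * ‖red z.1‖ ^ 4 ≤ (η + 1) ^ 2 + 1 := by
      have h2 : ‖z.2 - red z.1‖ ≤ ‖z.2‖ + ‖red z.1‖ := norm_sub_le _ _
      have h3 : ‖z.2 - red z.1‖ ≤ η + 1 := by linarith
      have h4 : ‖z.2 - red z.1‖ ^ 2 ≤ (η + 1) ^ 2 := pow_le_pow_left₀ (norm_nonneg _) h3 2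
      have h5 : ‖red z.1‖ ^ 4 ≤ 1 := pow_le_one₀ (norm_nonneg _) (by linarith)
      have h6 : k * ‖red z.1‖ ^ 4 ≤ 1 := by
        have : 0 ≤ ‖red z.1‖ ^ 4 := by positivity
        nlinarith
      linarith
    have h2 := Real.log_le_log (by positivity) h1
    have h3 := (abs_le.1 (hH (red z.1) hr)).2
    linarith
  · have hr0 : red z.1 ≠ 0 := red_ne_zero hz.1
    have hn : 0 < ‖red z.1‖ := norm_pos_iff.2 hr0
    have h1 : ‖z.2 / red z.1‖ ≤ 8 * η := by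
      rw [norm_div, div_le_iff₀ hn]
      nlinarith
    have h2 : ‖z.2 / red z.1 - 1‖ ≤ 8 * η + 1 := by
      have h3 : ‖z.2 / red z.1 - 1‖ ≤ ‖z.2 / red z.1‖ + ‖(1:ℂ)‖ := norm_sub_le _ _
      rw [norm_one] at h3
      linarith
    have h3 : ‖z.2 / red z.1 - 1‖ ^ 2 + k * ‖red z.1‖ ^ 2 ≤ (8 * η + 1) ^ 2 + 1 := by
      have h4 : ‖z.2 / red z.1 - 1‖ ^ 2 ≤ (8 * η + 1) ^ 2 := pow_le_pow_left₀ (norm_nonneg _) h2 2
      have h5 := sq_le_half (abs_red_re z.1) (abs_red_im z.1)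
      have h6 : k * ‖red z.1‖ ^ 2 ≤ 1 := by nlinarith [sq_nonneg ‖red z.1‖]
      linarith
    have h4 := Real.log_le_log (by positivity) h3
    obtain ⟨hc0, hc1⟩ := chi_mem z.1
    have h6 : chi z.1 * Real.log (‖z.2 / red z.1 - 1‖ ^ 2 + k * ‖red z.1‖ ^ 2) ≤
        Real.log ((8 * η + 1) ^ 2 + 1) := by
      rcases le_or_gt 0 (Real.log (‖z.2 / red z.1 - 1‖ ^ 2 + k * ‖red z.1‖ ^ 2)) with h7 | h7
      · nlinarith
      · have := mul_nonpos_of_nonneg_of_nonpos hc0 h7.le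
        linarith
    have h7 := (abs_le.1 (hB z.1 hr.le)).2
    unfold near
    linarith

/-- **comparison** -/
theorem comp : StComp := by
  intro G h c hG k C η hk hk1 hC hη
  obtain ⟨B, hB0, hB⟩ := G_bound hG
  obtain ⟨H, hH0, hH⟩ := h_bound hG
  obtain ⟨η2, hη2⟩ : ∃ η2, η2 = min η 1 / 2 := ⟨_, rfl⟩
  have hm0 : 0 < min η 1 := lt_min hη one_pos
  have hη20 : 0 < η2 := by rw [hη2]; linarith
  have hη2η : η2 < η := by
    rw [hη2]
    have := min_le_left η 1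
    linarith
  obtain ⟨A, hA⟩ : ∃ A, A = Real.log ((η + 1) ^ 2 + 1) + Real.log ((8 * η + 1) ^ 2 + 1) + H + B +
    C * η ^ 2 + 1 - 5 * Real.log η2 := ⟨_, rfl⟩
  obtain ⟨E0, hE0⟩ : ∃ E0, E0 = Real.log (k / 16) - H - B - Real.log 4 - A - 2 := ⟨_, rfl⟩
  obtain ⟨η1, hη1⟩ : ∃ η1, η1 = min (min (1 / 16) (η2 / 2)) (Real.exp E0) := ⟨_, rfl⟩
  have hη10 : 0 < η1 := by
    rw [hη1]
    exact lt_min (lt_min (by norm_num) (by linarith)) (Real.exp_pos _)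
  have hη1a : η1 ≤ 1 / 16 := by
    rw [hη1]; exact (min_le_left _ _).trans (min_le_left _ _)
  have hη1b : η1 ≤ η2 / 2 := by
    rw [hη1]; exact (min_le_left _ _).trans (min_le_right _ _)
  have hη1c : η1 ≤ Real.exp E0 := by
    rw [hη1]; exact min_le_right _ _
  have hl1 : 0 ≤ Real.log ((η + 1) ^ 2 + 1) := Real.log_nonneg (by nlinarith [sq_nonneg (η + 1)])
  have hl2 : 0 ≤ Real.log ((8 * η + 1) ^ 2 + 1) :=
    Real.log_nonneg (by nlinarith [sq_nonneg (8 * η + 1)])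
  have hl4 : 0 ≤ Real.log 4 := Real.log_nonneg (by norm_num)
  have hlk : Real.log (k / 16) ≤ 0 := Real.log_nonpos (by positivity) (by linarith)
  refine ⟨A, η1, η2, hη10, by linarith, hη2η, ?_, ?_⟩
  · -- near `y = 0`
    intro z hz hy
    have hy0 : 0 < ‖z.2‖ := norm_pos_iff.2 hz.2
    have hy1 : ‖z.2‖ ≤ 1 / 16 := hy.trans hη1a
    have hlogy : Real.log ‖z.2‖ ≤ E0 := by
      rw [Real.log_le_iff_le_exp hy0]
      exact hy.trans hη1c
    have hlogy0 : Real.log ‖z.2‖ ≤ 0 := Real.log_nonpos hy0.le (by linarith)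
    have hsq : Real.log (‖z.2‖ ^ 2) = 2 * Real.log ‖z.2‖ := by
      rw [Real.log_pow]; push_cast; ring
    have hl5 : Real.log (1 + ‖z.2‖ ^ 2) ≤ 1 := by
      have := Real.log_le_sub_one_of_pos (show 0 < 1 + ‖z.2‖ ^ 2 by positivity)
      nlinarith
    have key := low_key hG hk hk1 hC hB0 hB hH0 hH hz hy0 hy1 hlogy0 hl4 hlk
    unfold far
    rw [hsq]
    linarith
  · -- far from `y = 0`
    intro z hz hy hyη
    have hy0 : 0 < ‖z.2‖ := norm_pos_iff.2 hz.2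
    have hsq : Real.log (‖z.2‖ ^ 2) = 2 * Real.log ‖z.2‖ := by
      rw [Real.log_pow]; push_cast; ring
    have hlogy : Real.log η2 ≤ Real.log ‖z.2‖ := Real.log_le_log hη20 hy
    have hl5 : 0 ≤ Real.log (1 + ‖z.2‖ ^ 2) := Real.log_nonneg (by nlinarith [sq_nonneg ‖z.2‖])
    have hCy : C * ‖z.2‖ ^ 2 ≤ C * η ^ 2 := by gcongr
    have key := up_key hG hk hk1 hC hη hB0 hB hH0 hH hz hy0 hyη hCy hl1 hl2
    unfold far
    rw [hsq]
    linarith

end Pool.Agent.Y429.SP
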