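import Pool.Agent.Y184.SP.Base3

/-!
Project SP (MP_4ff127_gt): comparison of Levi forms by continuity.
-/

set_option autoImplicit false
set_option maxHeartbeats 200000

open Set Topology Filter
open scoped ContDiff

namespace Pool.Agent.Y429.SP

open Pool.Agent.Y184.SP

theorem two_le : (2 : WithTop ℕ∞) ≤ ∞ := WithTop.coe_le_coe.2 (le_top : (2 : ℕ∞) ≤ ⊤)

theorem tr_an (j : Fin 5) (z : E) (hz : tr j z ∈ W) : ContDiffAt ℂ ω (tr j) z := by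
  fin_cases j
  · exact contDiffAt_id
  · have h0 : z.2 ≠ 0 := by
      have : z.2⁻¹ ≠ 0 := hz.2
      exact fun h => this (by rw [h, inv_zero])
    have h1 : ContDiffAt ℂ ω (fun z : E => z.2⁻¹) z := contDiffAt_snd.inv h0
    exact contDiffAt_fst.prodMk h1
  · show ContDiffAt ℂ ω (fun z : E => (z.1 * z.2, z.2 + z.1 * z.2)) z
    fun_prop
  · show ContDiffAt ℂ ω (fun z : E => (z.1 * z.2, z.1 * z.2 ^ 2 + z.1 * z.2)) z
    fun_prop
  · show ContDiffAt ℂ ω (fun z : E => (z.1, z.1 ^ 2 * z.2 + z.1)) z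
    fun_prop

theorem lev_pull (hLev : StLev) {Φ : E → ℝ} (hΦ : ∀ z ∈ W, ContDiffAt ℝ ∞ Φ z) {j : Fin 5} {z : E}
    (hz : tr j z ∈ W) {ρ : E → ℝ} (hρ : ContDiffAt ℝ ∞ ρ z)
    (h : ∀ v, lev (fun t => ρ t - Φ (tr j t)) z v = 0) (v : E) :
    lev ρ z v = lev Φ (tr j z) (deriv (fun ζ : ℂ => tr j (z + ζ • v)) 0) := by
  obtain ⟨L1, -, L3, L4⟩ := hLev
  have hρ2 : ContDiffAt ℝ 2 ρ z := hρ.of_le two_le
  have htr := tr_an j z hz
  have htrR : ContDiffAt ℝ 2 (tr j) z := (htr.restrict_scalars ℝ).of_le le_top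
  have hΦ2 : ContDiffAt ℝ 2 (fun t => Φ (tr j t)) z := by
    have := (hΦ _ hz).of_le two_le
    exact ContDiffAt.comp z this htrR
  have hΦ2' : ContDiffAt ℝ 2 (fun t => (-1 : ℝ) * Φ (tr j t)) z := contDiffAt_const.mul hΦ2
  have e1 : (fun t => ρ t - Φ (tr j t)) = fun t => ρ t + (-1 : ℝ) * Φ (tr j t) := by
    funext t; ring
  have h1 := h v
  rw [e1, L3 ρ (fun t => (-1 : ℝ) * Φ (tr j t)) z v hρ2 hΦ2', L4 _ (-1) z v hΦ2] at h1
  have h2 : lev ρ z v = lev (fun t => Φ (tr j t)) z v := by linarith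
  rw [h2]
  have h0 : z + (0 : ℂ) • v = z := by simp
  have hf : ContDiffAt ℂ ω (fun ζ : ℂ => tr j (z + ζ • v)) 0 := by
    have h3 : ContDiffAt ℂ ω (fun ζ : ℂ => z + ζ • v) 0 := by fun_prop
    have h4 : ContDiffAt ℂ ω (tr j) ((fun ζ : ℂ => z + ζ • v) 0) := by
      show ContDiffAt ℂ ω (tr j) (z + (0 : ℂ) • v)
      rw [h0]; exact htr
    exact ContDiffAt.comp (0 : ℂ) h4 h3
  have hΦ3 : ContDiffAt ℝ 2 Φ ((fun ζ : ℂ => tr j (z + ζ • v)) 0) := by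
    show ContDiffAt ℝ 2 Φ (tr j (z + (0 : ℂ) • v))
    rw [h0]
    exact (hΦ _ hz).of_le two_le
  have h5 := L1 Φ (fun ζ : ℂ => tr j (z + ζ • v)) hf hΦ3
  have h6 : tr j (z + (0 : ℂ) • v) = tr j z := by rw [h0]
  have h7 : Laplacian.laplacian (fun ζ : ℂ => Φ (tr j (z + ζ • v))) 0 =
      lev Φ (tr j (z + (0 : ℂ) • v)) (deriv (fun ζ : ℂ => tr j (z + ζ • v)) 0) := h5
  rw [h6] at h7
  exact h7

/-- **comparison of Levi forms by continuity** -/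
theorem pos (hCpt : StCpt) (hLev : StLev) : StPos := by
  intro Φ Ψ a _ _ hΦ hΨ hW j z hz ρ σ hρ hσ v
  have hcl : z ∈ closure {z' | tr j z' ∈ W} := hCpt.2.1 j z hz
  have hne : (𝓝[{z' | tr j z' ∈ W}] z).NeBot := mem_closure_iff_nhdsWithin_neBot.1 hcl
  have hc : ∀ f : E → ℝ, SmAt f z → Tendsto (fun t => lev f t v) (𝓝[{z' | tr j z' ∈ W}] z)
      (𝓝 (lev f z v)) := by
    intro f hf
    obtain ⟨g, hg⟩ : ∃ g : E × E → ℝ, g = fun p => lev f p.1 p.2 := ⟨_, rfl⟩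
    have h1 : ContinuousAt g (z, v) := by rw [hg]; exact hLev.2.1 f z v hf
    have h2 : Tendsto (fun t : E => (t, v)) (𝓝 z) (𝓝 (z, v)) :=
      (continuous_id.prodMk continuous_const).tendsto z
    have h3 : Tendsto (fun t => g (t, v)) (𝓝 z) (𝓝 (g (z, v))) := h1.tendsto.comp h2
    have h4 := h3.mono_left (nhdsWithin_le_nhds (s := {z' | tr j z' ∈ W}))
    simpa only [hg] using h4
  refine le_of_tendsto_of_tendsto ((hc ρ hρ.1).const_mul a) (hc σ hσ.1) ?_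
  have hS : ∀ᶠ t in 𝓝[{z' | tr j z' ∈ W}] z, tr j t ∈ W := self_mem_nhdsWithin
  filter_upwards [hS, hρ.1.filter_mono nhdsWithin_le_nhds, hσ.1.filter_mono nhdsWithin_le_nhds,
    hρ.2.filter_mono nhdsWithin_le_nhds, hσ.2.filter_mono nhdsWithin_le_nhds] with t ht h1 h2 h3 h4
  rw [lev_pull hLev hΦ ht h1 (h3 ht) v, lev_pull hLev hΨ ht h2 (h4 ht) v]
  exact hW _ ht _

end Pool.Agent.Y429.SP
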