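import Pool.Agent.Y184.SP.Base3

/-!
Project SP (MP_4ff127_gt): smoothness of the potentials on `W`; local form of `red` and `chi`.
-/

set_option autoImplicit false

open Set Topology Filter
open scoped ContDiff

namespace Pool.Agent.Y429.SP

open Pool.Agent.Y184.SP

theorem round_local (t0 : ℝ) : (∀ᶠ t : ℝ in 𝓝 t0, round t = round t0) ∨
    ∀ᶠ t : ℝ in 𝓝 t0, (1 / 4 : ℝ) ≤ |t - ((round t : ℤ) : ℝ)| := by
  by_cases h : |t0 - ((round t0 : ℤ) : ℝ)| < 1 / 2
  · left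
    have h1 : ∀ᶠ t : ℝ in 𝓝 t0, |t - ((round t0 : ℤ) : ℝ)| < 1 / 2 := by
      have : ContinuousAt (fun t : ℝ => |t - (round t0 : ℤ)|) t0 := by fun_prop
      exact this.eventually (gt_mem_nhds h)
    filter_upwards [h1] with t ht
    rw [abs_lt] at ht
    rw [round_eq t, Int.floor_eq_iff]
    constructor <;> linarith [ht.1, ht.2]
  · right
    push Not at h
    have h1 : ∀ᶠ t in 𝓝 t0, |t - t0| < 1 / 8 := by
      have : ContinuousAt (fun t : ℝ => |t - t0|) t0 := by fun_prop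
      exact this.eventually (gt_mem_nhds (by simp))
    filter_upwards [h1] with t ht
    by_contra hcon
    push Not at hcon
    have h2 := round_le t0 (round t)
    have h3 : |t0 - (round t : ℤ)| ≤ |t - t0| + |t - (round t : ℤ)| := by
      have e : t0 - (round t : ℤ) = -(t - t0) + (t - (round t : ℤ)) := by ring
      rw [e]
      exact (abs_add_le _ _).trans (by rw [abs_neg])
    linarith

theorem red_re (x : ℂ) : (red x).re = x.re - (round x.re : ℤ) := by
  simp [red]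

theorem red_im (x : ℂ) : (red x).im = x.im - (round x.im : ℤ) := by
  simp [red]

/-- **local form of `red`** -/
theorem red_local (x0 : ℂ) : (∃ l ∈ Lam, ∀ᶠ x in 𝓝 x0, red x = x - l) ∨
    ∀ᶠ x in 𝓝 x0, 1 / 4 ≤ ‖red x‖ := by
  have cre : Tendsto (fun x : ℂ => x.re) (𝓝 x0) (𝓝 x0.re) := Complex.continuous_re.tendsto x0
  have cim : Tendsto (fun x : ℂ => x.im) (𝓝 x0) (𝓝 x0.im) := Complex.continuous_im.tendsto x0
  rcases round_local x0.re with h1 | h1
  · rcases round_local x0.im with h2 | h2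
    · left
      refine ⟨(round x0.re : ℤ) + (round x0.im : ℤ) * Complex.I, ⟨_, _, rfl⟩, ?_⟩
      filter_upwards [cre.eventually h1, cim.eventually h2] with x hx1 hx2
      unfold red
      rw [hx1, hx2]
      ring
    · right
      filter_upwards [cim.eventually h2] with x hx
      have := Complex.abs_im_le_norm (red x)
      rw [red_im] at this
      linarith
  · right
    filter_upwards [cre.eventually h1] with x hx
    have := Complex.abs_re_le_norm (red x)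
    rw [red_re] at this
    linarith

theorem chi_zero {x : ℂ} (h : 1 / 4 ≤ ‖red x‖) : chi x = 0 := by
  unfold chi
  apply bump.zero_of_le_dist
  rw [dist_zero_right]
  exact h

/-- **local form of `chi`** -/
theorem chi_local (x0 : ℂ) : (∃ l ∈ Lam, ∀ᶠ x in 𝓝 x0, red x = x - l ∧ chi x = bump (x - l)) ∨
    ∀ᶠ x in 𝓝 x0, chi x = 0 := by
  rcases red_local x0 with ⟨l, hl, h⟩ | h
  · left
    refine ⟨l, hl, ?_⟩
    filter_upwards [h] with x hx
    exact ⟨hx, by unfold chi; rw [hx]⟩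
  · right
    filter_upwards [h] with x hx
    exact chi_zero hx

theorem red_add {x l : ℂ} (hl : l ∈ Lam) : red (x + l) = red x := by
  obtain ⟨m, n, rfl⟩ := hl
  apply Complex.ext
  · rw [red_re, red_re]
    simp
  · rw [red_im, red_im]
    simp

theorem chi_add {x l : ℂ} (hl : l ∈ Lam) : chi (x + l) = chi x := by
  unfold chi; rw [red_add hl]

theorem red_ne_zero {x : ℂ} (hx : x ∉ Lam) : red x ≠ 0 := by
  intro h
  apply hx
  refine ⟨round x.re, round x.im, ?_⟩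
  unfold red at h
  linear_combination h

/-- **`chi x * g (red x, y)` is smooth at the points where `g` is smooth** -/
theorem smooth_chi_mul {g : ℂ × ℂ → ℝ} {z0 : E} (hg : ContDiffAt ℝ ∞ g (red z0.1, z0.2)) :
    ContDiffAt ℝ ∞ (fun z : E => chi z.1 * g (red z.1, z.2)) z0 := by
  have cfst : Tendsto (fun z : E => z.1) (𝓝 z0) (𝓝 z0.1) := continuous_fst.tendsto z0
  rcases chi_local z0.1 with ⟨l, _, h⟩ | h
  · have h0 : red z0.1 = z0.1 - l := h.self_of_nhds.1
    have h1 : (fun z : E => chi z.1 * g (red z.1, z.2)) =ᶠ[𝓝 z0]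
        fun z : E => bump (z.1 - l) * g (z.1 - l, z.2) := by
      filter_upwards [cfst.eventually h] with z hz
      rw [hz.1, hz.2]
    refine ContDiffAt.congr_of_eventuallyEq ?_ h1
    rw [h0] at hg
    have hb : ContDiffAt ℝ ∞ (fun z : E => bump (z.1 - l)) z0 := by
      have : ContDiff ℝ ∞ (bump : ℂ → ℝ) := bump.contDiff
      exact (this.comp (contDiff_fst.sub contDiff_const)).contDiffAt
    refine hb.mul ?_
    have h2 : ContDiffAt ℝ ∞ (fun z : E => (z.1 - l, z.2)) z0 :=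
      ((contDiff_fst.sub contDiff_const).prodMk contDiff_snd).contDiffAt
    exact ContDiffAt.comp z0 hg h2
  · have h1 : (fun z : E => chi z.1 * g (red z.1, z.2)) =ᶠ[𝓝 z0] fun _ => 0 := by
      filter_upwards [cfst.eventually h] with z hz
      rw [hz, zero_mul]
    exact contDiffAt_const.congr_of_eventuallyEq h1

theorem nsq : ContDiff ℝ ∞ (fun z : ℂ => ‖z‖ ^ 2) := contDiff_norm_sq ℝ

theorem smooth_g0 (p : ℂ × ℂ) : ContDiffAt ℝ ∞ (fun p : ℂ × ℂ => 1 + ‖p.2‖ ^ 2) p :=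
  (contDiff_const.add (nsq.comp contDiff_snd)).contDiffAt

theorem smooth_g1 {p : ℂ × ℂ} (hp : p.1 ≠ 0) : ContDiffAt ℝ ∞
    (fun p : ℂ × ℂ => Real.log ((‖p.1‖ ^ 2 + ‖p.2 - p.1‖ ^ 2) / (1 + ‖p.2‖ ^ 2))) p := by
  have h1 : ContDiffAt ℝ ∞ (fun p : ℂ × ℂ => ‖p.1‖ ^ 2 + ‖p.2 - p.1‖ ^ 2) p :=
    ((nsq.comp contDiff_fst).add (nsq.comp (contDiff_snd.sub contDiff_fst))).contDiffAt
  have hn : 0 < ‖p.1‖ := norm_pos_iff.2 hp
  have h2 : (1 + ‖p.2‖ ^ 2) ≠ 0 := by positivity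
  have h3 : (‖p.1‖ ^ 2 + ‖p.2 - p.1‖ ^ 2) / (1 + ‖p.2‖ ^ 2) ≠ 0 := by positivity
  exact (h1.div (smooth_g0 p) h2).log h3

theorem smooth_g2 {p : ℂ × ℂ} (hp : p.1 ≠ 0) : ContDiffAt ℝ ∞
    (fun p : ℂ × ℂ => Real.log ((‖p.2 - p.1‖ ^ 2 + ‖p.1‖ ^ 4) / (1 + ‖p.2‖ ^ 2))) p := by
  have h1 : ContDiffAt ℝ ∞ (fun p : ℂ × ℂ => ‖p.2 - p.1‖ ^ 2 + ‖p.1‖ ^ 4) p := by
    have e : (fun p : ℂ × ℂ => ‖p.2 - p.1‖ ^ 2 + ‖p.1‖ ^ 4) =
        fun p : ℂ × ℂ => ‖p.2 - p.1‖ ^ 2 + (‖p.1‖ ^ 2) ^ 2 := by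
      funext p; ring
    rw [e]
    exact ((nsq.comp (contDiff_snd.sub contDiff_fst)).add ((nsq.comp contDiff_fst).pow 2)).contDiffAt
  have hn : 0 < ‖p.1‖ := norm_pos_iff.2 hp
  have h2 : (1 + ‖p.2‖ ^ 2) ≠ 0 := by positivity
  have h3 : (‖p.2 - p.1‖ ^ 2 + ‖p.1‖ ^ 4) / (1 + ‖p.2‖ ^ 2) ≠ 0 := by positivity
  exact (h1.div (smooth_g0 p) h2).log h3

theorem smooth_g3 {p : ℂ × ℂ} (hp : p.1 ≠ 0) : ContDiffAt ℝ ∞
    (fun p : ℂ × ℂ => Real.log (‖p.1‖ ^ 2)) p := by
  have h1 : ContDiffAt ℝ ∞ (fun p : ℂ × ℂ => ‖p.1‖ ^ 2) p := (nsq.comp contDiff_fst).contDiffAt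
  have hn : 0 < ‖p.1‖ := norm_pos_iff.2 hp
  refine h1.log ?_
  positivity

theorem smooth_log (z : E) : ContDiffAt ℝ ∞ (fun z : E => Real.log (1 + ‖z.2‖ ^ 2)) z :=
  (smooth_g0 z).log (by positivity)

/-- **regularity of the potentials** -/
theorem reg : StReg := by
  refine ⟨?_, ?_⟩
  · intro z hz
    have hr : red z.1 ≠ 0 := red_ne_zero hz.1
    have h1 := smooth_chi_mul (z0 := z) ((smooth_g2 (p := (red z.1, z.2)) hr).sub
      (smooth_g3 (p := (red z.1, z.2)) hr))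
    have h2 := (contDiffAt_const (c := (3:ℝ))).mul (smooth_log z)
    exact h2.add h1
  · intro G h c hG K
    refine ⟨?_, ?_⟩
    · intro x y l hl
      unfold Psi L1 L2
      simp only [red_add hl, chi_add hl, hG.per x l hl]
    · intro z hz
      have hr : red z.1 ≠ 0 := red_ne_zero hz.1
      have h1 := smooth_chi_mul (z0 := z) ((smooth_g1 (p := (red z.1, z.2)) hr).add
        (smooth_g2 (p := (red z.1, z.2)) hr))
      have h2 : ContDiffAt ℝ ∞ (fun z : E => G z.1) z :=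
        ContDiffAt.comp z (hG.smooth z.1 hz.1) contDiffAt_fst
      have h3 := ((contDiffAt_const (c := K)).mul h2).neg
      have h4 := (contDiffAt_const (c := K)).mul (smooth_log z)
      exact (h3.add h4).add h1

end Pool.Agent.Y429.SP
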